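import Pool.Agent.U979.RG.Fin

/-!
# Counterexamples to the four exponentials conjecture and automorphisms

`σ` is an endomorphism of the field `K`, for instance the complex conjugation.  A counterexample `M`
with `σ M = A M B` for rational matrices `A`, `B` is equivalent to a matrix in normal form, if
`σ ^ 2 = 1`; and similarly for the transposed matrix.
-/

set_option autoImplicit false

namespace Pool.Agent.U979.CJ

open Matrix Pool.Agent.U979.RG Pool.Agent.U979.GX

variable {F K : Type*} [Field F] [Field K] [Algebra F K] [CharZero K]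

omit [CharZero K] in
theorem toK_map (σ : K →+* K) (A : Matrix (Fin 2) (Fin 2) ℚ) : (toK K A).map σ = toK K A := by
  ext i j
  simp [toK]

omit [CharZero K] in
theorem toK_transpose (A : Matrix (Fin 2) (Fin 2) ℚ) : (toK K A)ᵀ = toK K Aᵀ := by
  ext i j
  simp [toK]

omit [CharZero K] in
theorem toK_one : toK K (1 : Matrix (Fin 2) (Fin 2) ℚ) = 1 := by
  ext i j
  fin_cases i <;> fin_cases j <;> simp [toK]

theorem toK_smul (a : ℚ) (A : Matrix (Fin 2) (Fin 2) ℚ) : toK K (a • A) = (a : K) • toK K A := by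
  ext i j
  simp [toK]

/-- rational matrices which fix a counterexample -/
theorem fix_scalar [IsAlgClosed F] {S : Submodule F K} {Λ : Submodule ℚ K} (hs : Sys S Λ)
    {M : Matrix (Fin 2) (Fin 2) K} (hM : Ctr Λ M) (X Y : Matrix (Fin 2) (Fin 2) ℚ)
    (h : toK K X * M * toK K Y = M) :
    ∃ x : ℚ, x ≠ 0 ∧ X = x • (1 : Matrix (Fin 2) (Fin 2) ℚ) ∧
      Y = x⁻¹ • (1 : Matrix (Fin 2) (Fin 2) ℚ) := by
  have hρ := hM.slope hs
  have hσ := hM.transpose.slope hs
  simp only [Matrix.transpose_apply] at hσ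
  obtain ⟨e1, e2, e3⟩ := hM.exists
  have hx0 := hM.zero
  set ρ := M 0 1 / M 0 0 with hρd
  set σ := M 1 0 / M 0 0 with hσd
  have hent : ∀ i j, M i j = M 0 0 * (X i 0 + X i 1 * σ) * (Y 0 j + Y 1 j * ρ) := by
    intro i j
    have h1 := congrFun (congrFun h i) j
    simp only [toK, Matrix.mul_apply, Fin.sum_univ_two, Matrix.map_apply] at h1
    rw [← h1, e1, e2, e3]
    have hρ1 : M 0 1 / M 0 0 = ρ := rfl
    have hσ1 : M 1 0 / M 0 0 = σ := rfl
    ring
  have h00 : ((X 0 0 : K) + X 0 1 * σ) * (Y 0 0 + Y 1 0 * ρ) = 1 := by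
    have := hent 0 0
    have h1 : M 0 0 * (((X 0 0 : K) + X 0 1 * σ) * (Y 0 0 + Y 1 0 * ρ)) = M 0 0 * 1 := by
      rw [mul_one]
      nth_rewrite 2 [this]
      ring
    exact mul_left_cancel₀ hx0 h1
  have h10 : ((X 1 0 : K) + X 1 1 * σ) * (Y 0 0 + Y 1 0 * ρ) = σ := by
    have := hent 1 0
    have h1 : M 0 0 * (((X 1 0 : K) + X 1 1 * σ) * (Y 0 0 + Y 1 0 * ρ)) = M 0 0 * σ := by
      rw [mul_comm (M 0 0) σ, ← e2, this]
      ring
    exact mul_left_cancel₀ hx0 h1
  have h01 : ((X 0 0 : K) + X 0 1 * σ) * (Y 0 1 + Y 1 1 * ρ) = ρ := by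
    have := hent 0 1
    have h1 : M 0 0 * (((X 0 0 : K) + X 0 1 * σ) * (Y 0 1 + Y 1 1 * ρ)) = M 0 0 * ρ := by
      rw [mul_comm (M 0 0) ρ, ← e1, this]
      ring
    exact mul_left_cancel₀ hx0 h1
  have hf : (X 0 0 : K) + X 0 1 * σ ≠ 0 := by
    intro h0
    rw [h0, zero_mul] at h00
    exact zero_ne_one h00
  have hg : (Y 0 0 : K) + Y 1 0 * ρ ≠ 0 := by
    intro h0
    rw [h0, mul_zero] at h00
    exact zero_ne_one h00
  have hX : (X 1 0 : K) + (X 1 1 - X 0 0) * σ + (-X 0 1) * σ ^ 2 = 0 := by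
    have h1 : ((X 1 0 : K) + (X 1 1 - X 0 0) * σ + (-X 0 1) * σ ^ 2) *
        (Y 0 0 + Y 1 0 * ρ) = 0 := by
      linear_combination h10 - σ * h00
    exact (mul_eq_zero.mp h1).resolve_right hg
  have hY : (Y 0 1 : K) + (Y 1 1 - Y 0 0) * ρ + (-Y 1 0) * ρ ^ 2 = 0 := by
    have h1 : ((X 0 0 : K) + X 0 1 * σ) *
        ((Y 0 1 : K) + (Y 1 1 - Y 0 0) * ρ + (-Y 1 0) * ρ ^ 2) = 0 := by
      linear_combination h01 - ρ * h00
    exact (mul_eq_zero.mp h1).resolve_left hf
  obtain ⟨a1, a2, a3⟩ := quad_zero hσ (rat_mem_Cs _)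
    ((Cs F K).sub_mem (rat_mem_Cs _) (rat_mem_Cs _)) ((Cs F K).neg_mem (rat_mem_Cs _)) hX
  obtain ⟨b1, b2, b3⟩ := quad_zero hρ (rat_mem_Cs _)
    ((Cs F K).sub_mem (rat_mem_Cs _) (rat_mem_Cs _)) ((Cs F K).neg_mem (rat_mem_Cs _)) hY
  have a1' : X 1 0 = 0 := by exact_mod_cast a1
  have a2' : X 1 1 = X 0 0 := by exact_mod_cast sub_eq_zero.mp a2
  have a3' : X 0 1 = 0 := by exact_mod_cast neg_eq_zero.mp a3
  have b1' : Y 0 1 = 0 := by exact_mod_cast b1
  have b2' : Y 1 1 = Y 0 0 := by exact_mod_cast sub_eq_zero.mp b2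
  have b3' : Y 1 0 = 0 := by exact_mod_cast neg_eq_zero.mp b3
  have hxy : X 0 0 * Y 0 0 = 1 := by
    rw [a3', b3'] at h00
    have : (X 0 0 : K) * Y 0 0 = 1 := by
      push_cast at h00
      linear_combination h00
    exact_mod_cast this
  have hx : X 0 0 ≠ 0 := left_ne_zero_of_mul_eq_one hxy
  refine ⟨X 0 0, hx, ?_, ?_⟩
  · ext i j
    fin_cases i <;> fin_cases j <;> simp [a1', a2', a3']
  · have hy : Y 0 0 = (X 0 0)⁻¹ := eq_inv_of_mul_eq_one_right hxy
    ext i j
    fin_cases i <;> fin_cases j <;> simp [b1', b2', b3', hy]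

/-- square roots of scalar matrices -/
theorem sqrt_scalar (A : Matrix (Fin 2) (Fin 2) ℚ) (x : ℚ)
    (h : A * A = x • (1 : Matrix (Fin 2) (Fin 2) ℚ)) :
    (∃ a : ℚ, A = a • (1 : Matrix (Fin 2) (Fin 2) ℚ) ∧ a * a = x) ∨
      (A 1 1 = -A 0 0 ∧ A 0 0 * A 0 0 + A 0 1 * A 1 0 = x) := by
  have h00 := congrFun (congrFun h 0) 0
  have h01 := congrFun (congrFun h 0) 1
  have h10 := congrFun (congrFun h 1) 0
  have h11 := congrFun (congrFun h 1) 1
  simp [Matrix.mul_apply, Fin.sum_univ_two] at h00 h01 h10 h11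
  by_cases ht : A 0 0 + A 1 1 = 0
  · right
    exact ⟨by linear_combination ht, h00⟩
  · left
    have hb : A 0 1 = 0 := by
      have : (A 0 0 + A 1 1) * A 0 1 = 0 := by linear_combination h01
      exact (mul_eq_zero.mp this).resolve_left ht
    have hc : A 1 0 = 0 := by
      have : (A 0 0 + A 1 1) * A 1 0 = 0 := by linear_combination h10
      exact (mul_eq_zero.mp this).resolve_left ht
    have hd : A 1 1 = A 0 0 := by
      have : (A 0 0 + A 1 1) * (A 1 1 - A 0 0) = 0 := by linear_combination h11 - h00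
      linarith [(mul_eq_zero.mp this).resolve_left ht]
    refine ⟨A 0 0, ?_, ?_⟩
    · ext i j
      fin_cases i <;> fin_cases j <;> simp [hb, hc, hd]
    · rw [hb] at h00
      linear_combination h00

/-- a nonzero quadratic form takes a nonzero value -/
theorem form_value (a b c : ℚ) (h : ¬ (a = 0 ∧ b = 0 ∧ c = 0)) :
    ∃ u v : ℚ, a * u * u + b * u * v + c * v * v ≠ 0 := by
  by_cases ha : a = 0
  · by_cases hc : c = 0
    · refine ⟨1, 1, ?_⟩
      have hb : b ≠ 0 := fun hb => h ⟨ha, hb, hc⟩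
      rw [ha, hc]
      simpa using hb
    · exact ⟨0, 1, by simpa using hc⟩
  · exact ⟨1, 0, by simpa using ha⟩

/-- the basis of the rows adapted to a matrix of trace zero -/
theorem left_basis (A : Matrix (Fin 2) (Fin 2) ℚ) (x : ℚ) (hx : x ≠ 0)
    (h1 : A 1 1 = -A 0 0) (h2 : A 0 0 * A 0 0 + A 0 1 * A 1 0 = x) :
    ∃ P : Matrix (Fin 2) (Fin 2) ℚ, P.det ≠ 0 ∧ !![0, x; 1, 0] * P = P * A := by
  obtain ⟨u, v, huv⟩ := form_value (-A 0 1) (2 * A 0 0) (A 1 0) (by
    rintro ⟨h3, h4, h5⟩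
    apply hx
    rw [← h2, h5]
    have : A 0 0 = 0 := by linarith
    rw [this]
    ring)
  refine ⟨!![u * A 0 0 + v * A 1 0, u * A 0 1 + v * A 1 1; u, v], ?_, ?_⟩
  · rw [Matrix.det_fin_two]
    simp only [Matrix.of_apply, Matrix.cons_val', Matrix.cons_val_zero, Matrix.cons_val_one,
      Matrix.cons_val_fin_one]
    intro h0
    apply huv
    rw [h1] at h0
    linear_combination h0
  · ext i j
    fin_cases i <;> fin_cases j <;>
      simp [Matrix.mul_apply, Fin.sum_univ_two] <;>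
        (rw [← h2]; rw [h1]; ring)

/-- the basis of the columns -/
theorem right_basis (B : Matrix (Fin 2) (Fin 2) ℚ) (x : ℚ) (hx : x ≠ 0)
    (h1 : B 1 1 = -B 0 0) (h2 : B 0 0 * B 0 0 + B 0 1 * B 1 0 = x⁻¹) :
    ∃ Q : Matrix (Fin 2) (Fin 2) ℚ, Q.det ≠ 0 ∧ Q * !![0, 1; x⁻¹, 0] = B * Q := by
  obtain ⟨u, v, huv⟩ := form_value (B 1 0) (-2 * B 0 0) (-B 0 1) (by
    rintro ⟨h3, h4, h5⟩
    apply inv_ne_zero hx
    rw [← h2, h3]
    have : B 0 0 = 0 := by linarith
    rw [this]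
    ring)
  refine ⟨!![u, x * (B 0 0 * u + B 0 1 * v); v, x * (B 1 0 * u + B 1 1 * v)], ?_, ?_⟩
  · rw [Matrix.det_fin_two]
    simp only [Matrix.of_apply, Matrix.cons_val', Matrix.cons_val_zero, Matrix.cons_val_one,
      Matrix.cons_val_fin_one]
    intro h0
    have h3 : x * (B 1 0 * u * u + -2 * B 0 0 * u * v + -B 0 1 * v * v) = 0 := by
      rw [← h0, h1]
      ring
    exact huv ((mul_eq_zero.mp h3).resolve_left hx)
  · have h3 : x * (B 0 0 * B 0 0 + B 0 1 * B 1 0) = 1 := by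
      rw [h2, mul_inv_cancel₀ hx]
    ext i j
    fin_cases i <;> fin_cases j <;> simp [Matrix.mul_apply, Fin.sum_univ_two, h1]
    · field_simp
    · linear_combination (-u) * h3
    · field_simp
    · linear_combination (-v) * h3

/-- transport of the relation `σ M = A M B` -/
theorem conj_basis (σ : K →+* K) {M : Matrix (Fin 2) (Fin 2) K}
    {A B P Q A' B' : Matrix (Fin 2) (Fin 2) ℚ} (h : M.map σ = toK K A * M * toK K B)
    (hP : A' * P = P * A) (hQ : Q * B' = B * Q) :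
    (toK K P * M * toK K Q).map σ = toK K A' * (toK K P * M * toK K Q) * toK K B' := by
  rw [Matrix.map_mul, Matrix.map_mul, toK_map, toK_map, h]
  calc toK K P * (toK K A * M * toK K B) * toK K Q
      = toK K (P * A) * M * toK K (B * Q) := by
        rw [toK_mul, toK_mul]
        simp only [Matrix.mul_assoc]
    _ = toK K A' * (toK K P * M * toK K Q) * toK K B' := by
        rw [← hP, ← hQ, toK_mul, toK_mul]
        simp only [Matrix.mul_assoc]

/-- the case `σ M = M B` with `B ^ 2 = 1` and `tr B = 0` -/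
theorem nf_right (σ : K →+* K) {M : Matrix (Fin 2) (Fin 2) K} (B : Matrix (Fin 2) (Fin 2) ℚ)
    (h : M.map σ = M * toK K B) (h1 : B 1 1 = -B 0 0)
    (h2 : B 0 0 * B 0 0 + B 0 1 * B 1 0 = 1) :
    ∃ Q : Matrix (Fin 2) (Fin 2) ℚ, Q.det ≠ 0 ∧ ∀ i,
      σ ((M * toK K Q) i 0) = (M * toK K Q) i 0 ∧ σ ((M * toK K Q) i 1) = -(M * toK K Q) i 1 := by
  obtain ⟨u, v, huv⟩ := form_value (B 1 0) (-2 * B 0 0) (-B 0 1) (by
    rintro ⟨h3, h4, h5⟩
    apply one_ne_zero (α := ℚ)
    rw [← h2, h3]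
    have : B 0 0 = 0 := by linarith
    rw [this]
    ring)
  let Q : Matrix (Fin 2) (Fin 2) ℚ := !![u + (B 0 0 * u + B 0 1 * v), u - (B 0 0 * u + B 0 1 * v);
    v + (B 1 0 * u + B 1 1 * v), v - (B 1 0 * u + B 1 1 * v)]
  have hQ : Q * !![1, 0; 0, -1] = B * Q := by
    ext i j
    fin_cases i <;> fin_cases j <;> simp [Q, Matrix.mul_apply, Fin.sum_univ_two, h1]
    · linear_combination (-u) * h2
    · linear_combination u * h2
    · linear_combination (-v) * h2
    · linear_combination v * h2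
  refine ⟨Q, ?_, ?_⟩
  · rw [Matrix.det_fin_two]
    simp only [Q, Matrix.of_apply, Matrix.cons_val', Matrix.cons_val_zero, Matrix.cons_val_one,
      Matrix.cons_val_fin_one]
    intro h0
    apply huv
    rw [h1] at h0
    linear_combination (-1 / 2 : ℚ) * h0
  · have h3 := conj_basis (A := 1) (P := 1) (A' := 1) (B' := !![1, 0; 0, -1]) σ (by
      rw [toK_one, Matrix.one_mul]
      exact h) rfl hQ
    rw [toK_one, Matrix.one_mul, Matrix.one_mul] at h3
    intro i
    have h4 := congrFun (congrFun h3 i) 0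
    have h5 := congrFun (congrFun h3 i) 1
    rw [Matrix.map_apply] at h4 h5
    rw [h4, h5]
    constructor
    · rw [Matrix.mul_apply, Fin.sum_univ_two]
      simp [toK]
    · rw [Matrix.mul_apply, Fin.sum_univ_two]
      simp [toK]

/-- **Normal form** of a counterexample with `σ M = A M B`, `σ ^ 2 = 1`. -/
theorem normal_form [IsAlgClosed F] {S : Submodule F K} {Λ : Submodule ℚ K} (hs : Sys S Λ)
    {M : Matrix (Fin 2) (Fin 2) K} (hM : Ctr Λ M) (σ : K →+* K) (hσ : ∀ z, σ (σ z) = z)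
    (A B : Matrix (Fin 2) (Fin 2) ℚ) (h : M.map σ = toK K A * M * toK K B) :
    ∃ P Q : Matrix (Fin 2) (Fin 2) ℚ, P.det ≠ 0 ∧ Q.det ≠ 0 ∧
      ((∀ i j, σ ((toK K P * M * toK K Q) i j) = (toK K P * M * toK K Q) i j ∨
        σ ((toK K P * M * toK K Q) i j) = -(toK K P * M * toK K Q) i j) ∨
      ∃ D : ℚ, D ≠ 0 ∧
        (toK K P * M * toK K Q) 1 1 = σ ((toK K P * M * toK K Q) 0 0) ∧
        (toK K P * M * toK K Q) 0 1 = D * σ ((toK K P * M * toK K Q) 1 0)) := by
  have hsq : toK K (A * A) * M * toK K (B * B) = M := by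
    have h1 : (M.map σ).map σ = M := by
      ext i j
      simp [hσ]
    have h2 : (M.map σ).map σ = toK K A * (M.map σ) * toK K B := by
      nth_rewrite 1 [h]
      rw [Matrix.map_mul, Matrix.map_mul, toK_map, toK_map]
    rw [h1, h] at h2
    rw [toK_mul, toK_mul]
    simp only [Matrix.mul_assoc] at h2 ⊢
    exact h2.symm
  obtain ⟨x, hx, hA, hB⟩ := fix_scalar hs hM _ _ hsq
  have hdet1 : (1 : Matrix (Fin 2) (Fin 2) ℚ).det ≠ 0 := by simp
  rcases sqrt_scalar A x hA with ⟨a, hAa, haa⟩ | ⟨hA1, hA2⟩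
  · have ha : a ≠ 0 := by
      rintro rfl
      apply hx
      rw [← haa, mul_zero]
    have h1 : M.map σ = M * toK K (a • B) := by
      rw [h, hAa, toK_smul, toK_smul, toK_one]
      simp
    have hB1 : (a • B) * (a • B) = (1 : ℚ) • (1 : Matrix (Fin 2) (Fin 2) ℚ) := by
      rw [smul_mul_smul_comm, hB, smul_smul, haa, mul_inv_cancel₀ hx]
    rcases sqrt_scalar (a • B) 1 hB1 with ⟨b, hBb, hbb⟩ | ⟨hB1, hB2⟩
    · -- both scalar
      refine ⟨1, 1, hdet1, hdet1, Or.inl fun i j => ?_⟩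
      rw [toK_one, Matrix.one_mul, Matrix.mul_one]
      have h3 := congrFun (congrFun h1 i) j
      rw [hBb, toK_smul, toK_one] at h3
      simp only [Matrix.map_apply, Matrix.mul_smul, Matrix.mul_one, Matrix.smul_apply,
        smul_eq_mul] at h3
      rcases mul_self_eq_one_iff.mp hbb with rfl | rfl
      · left
        rw [h3, Rat.cast_one, one_mul]
      · right
        rw [h3]
        push_cast
        ring
    · obtain ⟨Q, hQ, hN⟩ := nf_right σ (a • B) h1 hB1 hB2
      refine ⟨1, Q, hdet1, hQ, Or.inl fun i j => ?_⟩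
      rw [toK_one, Matrix.one_mul]
      fin_cases j
      · exact Or.inl (hN i).1
      · exact Or.inr (hN i).2
  · rcases sqrt_scalar B x⁻¹ hB with ⟨b, hBb, hbb⟩ | ⟨hB1, hB2⟩
    · have hb : b ≠ 0 := by
        rintro rfl
        apply inv_ne_zero hx
        rw [← hbb, mul_zero]
      have h1 : Mᵀ.map σ = Mᵀ * toK K (b • Aᵀ) := by
        rw [Matrix.transpose_map, h, hBb, toK_smul, toK_smul, toK_one, Matrix.transpose_mul,
          Matrix.transpose_mul, toK_transpose]
        simp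
      have hxb : b * b * x = 1 := by rw [hbb, inv_mul_cancel₀ hx]
      obtain ⟨Q, hQ, hN⟩ := nf_right σ (b • Aᵀ) h1 (by
        simp [hA1]) (by
        simp only [Matrix.smul_apply, Matrix.transpose_apply, smul_eq_mul]
        rw [← hxb, ← hA2]
        ring)
      refine ⟨Qᵀ, 1, by rwa [Matrix.det_transpose], hdet1, Or.inl fun i j => ?_⟩
      have h2 : ∀ i j, (toK K Qᵀ * M * toK K 1) i j = (Mᵀ * toK K Q) j i := by
        intro i j
        rw [toK_one, Matrix.mul_one, ← toK_transpose, ← Matrix.transpose_apply (Mᵀ * toK K Q) i j,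
          Matrix.transpose_mul, Matrix.transpose_transpose]
      rw [h2]
      fin_cases i
      · exact Or.inl (hN j).1
      · exact Or.inr (hN j).2
    · obtain ⟨P, hP, hP'⟩ := left_basis A x hx hA1 hA2
      obtain ⟨Q, hQ, hQ'⟩ := right_basis B x hx hB1 hB2
      have h3 := conj_basis σ h hP' hQ'
      refine ⟨P, Q, hP, hQ, Or.inr ⟨x, hx, ?_, ?_⟩⟩
      · have h4 := congrFun (congrFun h3 0) 0
        rw [Matrix.map_apply] at h4
        rw [h4]
        set N := toK K P * M * toK K Q with hN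
        clear_value N
        have hxK : (x : K) ≠ 0 := by exact_mod_cast hx
        simp [toK, Matrix.mul_apply, Fin.sum_univ_two]
        field_simp
      · have h4 := congrFun (congrFun h3 1) 0
        rw [Matrix.map_apply] at h4
        rw [h4]
        set N := toK K P * M * toK K Q with hN
        clear_value N
        have hxK : (x : K) ≠ 0 := by exact_mod_cast hx
        simp [toK, Matrix.mul_apply, Fin.sum_univ_two]
        field_simp

/-- **Hermitian form** of a counterexample with `(σ M)ᵀ = A M B`, `σ ^ 2 = 1`. -/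
theorem herm_form [IsAlgClosed F] {S : Submodule F K} {Λ : Submodule ℚ K} (hs : Sys S Λ)
    {M : Matrix (Fin 2) (Fin 2) K} (hM : Ctr Λ M) (σ : K →+* K) (hσ : ∀ z, σ (σ z) = z)
    (A B : Matrix (Fin 2) (Fin 2) ℚ) (hA : A.det ≠ 0) (h : (M.map σ)ᵀ = toK K A * M * toK K B) :
    ((toK K A * M).map σ)ᵀ = toK K A * M ∨ ((toK K A * M).map σ)ᵀ = -(toK K A * M) := by
  have h1 : M = toK K (Bᵀ * A) * M * toK K (B * Aᵀ) := by
    have h2 : (((M.map σ)ᵀ).map σ)ᵀ = M := by
      ext i j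
      simp [hσ]
    have h3 : (((M.map σ)ᵀ).map σ)ᵀ = toK K Bᵀ * (M.map σ)ᵀ * toK K Aᵀ := by
      nth_rewrite 1 [h]
      rw [Matrix.map_mul, Matrix.map_mul, toK_map, toK_map, Matrix.transpose_mul,
        Matrix.transpose_mul, toK_transpose, toK_transpose]
      simp only [Matrix.mul_assoc]
    rw [h2, h] at h3
    nth_rewrite 1 [h3]
    rw [toK_mul, toK_mul]
    simp only [Matrix.mul_assoc]
  obtain ⟨x, hx, hX, hY⟩ := fix_scalar hs hM _ _ h1.symm
  have hY' : A * Bᵀ = x⁻¹ • (1 : Matrix (Fin 2) (Fin 2) ℚ) := by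
    have := congrArg Matrix.transpose hY
    rwa [Matrix.transpose_mul, Matrix.transpose_transpose, Matrix.transpose_smul,
      Matrix.transpose_one] at this
  have hxx : x = x⁻¹ := by
    have h4 : A * (Bᵀ * A) = A * Bᵀ * A := by rw [Matrix.mul_assoc]
    rw [hX, hY', Matrix.mul_smul, Matrix.mul_one, Matrix.smul_mul, Matrix.one_mul] at h4
    have h5 : A ≠ 0 := by
      rintro rfl
      simp at hA
    have h6 : (x - x⁻¹) • A = 0 := by rw [sub_smul, h4, sub_self]
    exact sub_eq_zero.mp ((smul_eq_zero.mp h6).resolve_right h5)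
  have h7 : ((toK K A * M).map σ)ᵀ = (x⁻¹ : ℚ) • (toK K A * M) := by
    rw [Matrix.map_mul, toK_map, Matrix.transpose_mul, h, toK_transpose, Matrix.mul_assoc,
      ← toK_mul, hY, toK_smul, toK_one]
    ext i j
    simp [Rat.smul_def]
  have hxx' : x * x = 1 := by
    nth_rewrite 2 [hxx]
    exact mul_inv_cancel₀ hx
  rcases mul_self_eq_one_iff.mp hxx' with rfl | rfl
  · left
    rw [h7]
    simp
  · right
    rw [h7]
    ext i j
    norm_num

end Pool.Agent.U979.CJ
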